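import Pool.Agent.H3.SGG.Defs
import Pool.Agent.H86.Stab.StableTriv
import Pool.Agent.H86.Stab.MLTG
import Pool.Agent.H86.Stab.Elem
import Pool.Agent.H86.Stab.Raag

/-! The slim definitions agree with those of `Pool.Agent.H86.Stab`. -/

set_option autoImplicit false

namespace Pool.Agent.H3.SGG

open Set Pool.Agent.H86

section conv

variable {G : Type} [Group G] (Sg : Stab.GenSet G)

/-- the point in the old model -/
def toOld (p : Pt (Sg.gens : Set G)) : Stab.CayleyPt Sg :=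
  ⟨p.g, p.h, p.edge, p.t, p.t_nonneg, p.t_le_one⟩

/-- the point in the new model -/
def toNew (p : Stab.CayleyPt Sg) : Pt (Sg.gens : Set G) :=
  ⟨p.src, p.tgt, p.adj, p.t, p.t_nonneg, p.t_le_one⟩

theorem edgeLen_eq (p : Pt (Sg.gens : Set G)) : edgeLen p = (toOld Sg p).elen := rfl

theorem isEnd_legs (p : Pt (Sg.gens : Set G)) (x : G) (r : ℝ) :
    IsEnd p x r ↔ ∃ b : Bool, x = (toOld Sg p).legV b ∧ r = (toOld Sg p).legC b := by
  constructor
  · rintro (⟨h1, h2⟩ | ⟨h1, h2⟩)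
    · exact ⟨true, h1, by rw [h2]; rfl⟩
    · refine ⟨false, h1, ?_⟩
      rw [h2]; simp [Stab.CayleyPt.legC, edgeLen_eq, toOld]
  · rintro ⟨b, h1, h2⟩
    cases b
    · right
      refine ⟨by rw [h1]; rfl, ?_⟩
      rw [h2]; simp [Stab.CayleyPt.legC, edgeLen_eq, toOld]
    · left
      exact ⟨by rw [h1]; rfl, by rw [h2]; rfl⟩

theorem dist_eq (p q : Pt (Sg.gens : Set G)) :
    dist p q = Stab.CayleyPt.cdist (toOld Sg p) (toOld Sg q) := by
  have key : IsLeast {r | (∃ (x y : G) (a b : ℝ), IsEnd p x a ∧ IsEnd q y b ∧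
      r = a + len (Sg.gens : Set G) (x⁻¹ * y) + b) ∨
    (p.g = q.g ∧ p.h = q.h ∧ r = |p.t - q.t| * edgeLen p) ∨
    (p.g = q.h ∧ p.h = q.g ∧ r = |p.t - (1 - q.t)| * edgeLen p)}
      (Stab.CayleyPt.cdist (toOld Sg p) (toOld Sg q)) := by
    constructor
    · rcases Stab.CayleyPt.cdist_cases (toOld Sg p) (toOld Sg q) with h | ⟨h1, h⟩ | ⟨h1, h⟩
      · left
        obtain ⟨b, c, h'⟩ := Stab.CayleyPt.thr_eq (toOld Sg p) (toOld Sg q)
        refine ⟨_, _, _, _, (isEnd_legs Sg p _ _).2 ⟨b, rfl, rfl⟩,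
          (isEnd_legs Sg q _ _).2 ⟨c, rfl, rfl⟩, ?_⟩
        rw [h, h']
        rfl
      · right; left
        exact ⟨h1.1, h1.2, h⟩
      · right; right
        exact ⟨h1.1, h1.2, h⟩
    · rintro r (⟨x, y, a, b, hx, hy, rfl⟩ | ⟨h1, h2, rfl⟩ | ⟨h1, h2, rfl⟩)
      · obtain ⟨β, rfl, rfl⟩ := (isEnd_legs Sg p x a).1 hx
        obtain ⟨c, rfl, rfl⟩ := (isEnd_legs Sg q y b).1 hy
        exact (Stab.CayleyPt.cdist_le_thr _ _).trans (Stab.CayleyPt.thr_le _ _ β c)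
      · exact Stab.CayleyPt.cdist_le_same (p := toOld Sg p) (q := toOld Sg q) ⟨h1, h2⟩
      · exact Stab.CayleyPt.cdist_le_opp (p := toOld Sg p) (q := toOld Sg q) ⟨h1, h2⟩
  exact key.csInf_eq

/-- the map to the old Cayley graph -/
noncomputable def e (p : Pt (Sg.gens : Set G)) : Stab.CayleyGraph Sg :=
  SeparationQuotient.mk (toOld Sg p)

theorem e_dist (p q : Pt (Sg.gens : Set G)) : Dist.dist (e Sg p) (e Sg q) = dist p q := by
  rw [dist_eq]
  rfl

theorem e_surj : Function.Surjective (e Sg) := by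
  intro x
  obtain ⟨p, rfl⟩ := SeparationQuotient.surjective_mk x
  exact ⟨toNew Sg p, rfl⟩

theorem e_vert (g : G) : e Sg (vert (Sg.gens : Set G) g) = Stab.vertex Sg g := rfl

theorem e_zero (p q : Pt (Sg.gens : Set G)) : dist p q = 0 ↔ e Sg p = e Sg q := by
  rw [← e_dist, dist_eq_zero]

theorem qg_iff (lam eps : ℝ) (I : Set ℝ) (γ : ℝ → Pt (Sg.gens : Set G)) :
    IsQuasiGeodesic lam eps I γ ↔ Stab.IsQuasiGeodesic lam eps I (fun x => e Sg (γ x)) := by
  unfold IsQuasiGeodesic Stab.IsQuasiGeodesic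
  simp only [e_dist]

theorem morse_iff (M : ℝ → ℝ → NNReal) (I : Set ℝ) (γ : ℝ → Pt (Sg.gens : Set G)) :
    IsMorse M I γ ↔ Stab.IsMorse M ((fun x => e Sg (γ x)) '' I) := by
  constructor
  · intro h lam eps hl he a b β hab hβ ha hb t ht
    choose β' hβ' using fun x => e_surj Sg (β x)
    have hβe : (fun x => e Sg (β' x)) = β := funext hβ'
    obtain ⟨s, hs, hs'⟩ := ha
    obtain ⟨s₁, hs₁, hs₁'⟩ := hb
    obtain ⟨u, hu, hu'⟩ := h lam eps hl he a b β' hab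
      ((qg_iff Sg lam eps _ β').2 (by rw [hβe]; exact hβ))
      ⟨s, hs, (e_zero Sg _ _).2 (by rw [hβ']; exact hs'.symm)⟩
      ⟨s₁, hs₁, (e_zero Sg _ _).2 (by rw [hβ']; exact hs₁'.symm)⟩ t ht
    refine ⟨e Sg (γ u), ⟨u, hu, rfl⟩, ?_⟩
    rw [← hβ' t, e_dist]
    exact hu'
  · intro h lam eps hl he a b β hab hβ ha hb t ht
    obtain ⟨s, hs, hs'⟩ := ha
    obtain ⟨s₁, hs₁, hs₁'⟩ := hb
    obtain ⟨y, ⟨u, hu, rfl⟩, hy⟩ := h lam eps hl he a b (fun x => e Sg (β x)) hab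
      ((qg_iff Sg lam eps _ β).1 hβ) ⟨s, hs, ((e_zero Sg _ _).1 hs').symm⟩
      ⟨s₁, hs₁, ((e_zero Sg _ _).1 hs₁').symm⟩ t ht
    exact ⟨u, hu, by rw [← e_dist]; exact hy⟩

theorem localMorse_iff (L : ℝ) (M : ℝ → ℝ → NNReal) (lam eps : ℝ) (I : Set ℝ)
    (γ : ℝ → Pt (Sg.gens : Set G)) :
    IsLocalMorse L M lam eps I γ ↔
      Stab.IsLocalMorse L M lam eps I (fun x => e Sg (γ x)) := by
  unfold IsLocalMorse Stab.IsLocalMorse
  simp only [qg_iff, morse_iff]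

theorem mltg (h : Stab.IsMorseLocalToGlobal Sg) : IsMorseLocalToGlobal (Sg.gens : Set G) := by
  intro M lam eps hl he
  obtain ⟨L, M', lam', eps', hl', he', h'⟩ := h M lam eps hl he
  refine ⟨L, M', lam', eps', hl', he', fun I γ hI hγ => ?_⟩
  have := h' I (fun x => e Sg (γ x)) hI ((localMorse_iff Sg L M lam eps I γ).1 hγ)
  exact ⟨(qg_iff Sg _ _ _ _).2 this.1, (morse_iff Sg _ _ _).2 this.2⟩

theorem morseElement (g : G) (h : Stab.IsMorseElement Sg g) :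
    IsMorseElement (Sg.gens : Set G) g := by
  obtain ⟨h1, M, lam, eps, hl, he, h2, h3⟩ := h
  refine ⟨h1, M, lam, eps, hl, he, ?_, ?_⟩
  · rw [qg_iff]
    exact h2
  · rw [morse_iff]
    exact h3

theorem stable (H : Subgroup G) (h : IsStable (Sg.gens : Set G) H) : Stab.IsStable Sg H := by
  obtain ⟨⟨T, C, hT, hC⟩, M, hM⟩ := h
  refine ⟨⟨T, hT, C, hC⟩, M, fun a b γ hab hγ ha hb => ?_⟩
  choose γ' hγ' using fun x => e_surj Sg (γ x)
  have hγe : (fun x => e Sg (γ' x)) = γ := funext hγ'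
  obtain ⟨x, hx, hx'⟩ := ha
  obtain ⟨y, hy, hy'⟩ := hb
  have := hM a b γ' hab (fun s hs t ht => by rw [← e_dist, hγ', hγ']; exact hγ s hs t ht)
    ⟨x, hx, (e_zero Sg _ _).2 (by rw [hγ', e_vert]; exact hx')⟩
    ⟨y, hy, (e_zero Sg _ _).2 (by rw [hγ', e_vert]; exact hy')⟩
  rw [morse_iff, hγe] at this
  exact this

end conv

theorem verts_eq : (range PresentedGroup.of : Set (Stab.RAAG Stab.twoSquares)) =
    ((Stab.stdGens Stab.twoSquares).gens : Set (Stab.RAAG Stab.twoSquares)) := by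
  ext g
  rw [Finset.mem_coe, Stab.mem_stdGens]
  exact Iff.rfl

theorem main₀ (S : Set (Stab.RAAG Stab.twoSquares))
    (hS : S = ((Stab.stdGens Stab.twoSquares).gens : Set (Stab.RAAG Stab.twoSquares))) :
    IsMorseLocalToGlobal S ∧
    ¬ IsVirtuallyCyclic (Stab.RAAG Stab.twoSquares) ∧
    (∃ g : Stab.RAAG Stab.twoSquares, IsMorseElement S g) ∧
    (∀ H : Subgroup (Stab.RAAG Stab.twoSquares), IsStable S H →
      growthRate S H ≤ ENNReal.ofReal (62 / 5)) ∧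
    ENNReal.ofReal (249 / 20) ≤ growthRate S univ ∧
    ¬ ∃ H : ℕ → Subgroup (Stab.RAAG Stab.twoSquares),
      (∀ i, IsStable S (H i) ∧ (H i).index = 0) ∧
      Filter.Tendsto (fun i => growthRate S (H i)) Filter.atTop (nhds (growthRate S univ)) := by
  subst hS
  have h1 : ∀ H : Subgroup (Stab.RAAG Stab.twoSquares),
      IsStable ((Stab.stdGens Stab.twoSquares).gens : Set (Stab.RAAG Stab.twoSquares)) H →
      growthRate ((Stab.stdGens Stab.twoSquares).gens : Set (Stab.RAAG Stab.twoSquares)) H ≤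
        ENNReal.ofReal (62 / 5) := by
    intro H hH
    exact Stab.fpGG.growthRate_le_of_triv fun i g κ h =>
      Stab.fpGG.stable_trivial (stable (Stab.stdGens Stab.twoSquares) H hH) i g κ h
  have h2 : ENNReal.ofReal (249 / 20) ≤
      growthRate ((Stab.stdGens Stab.twoSquares).gens : Set (Stab.RAAG Stab.twoSquares)) univ :=
    Stab.fpGG.growthRate_univ_ge
  refine ⟨mltg _ Stab.fpGG.morse_local_to_global, Stab.fpGG.not_virtually_cyclic,
    ⟨_, morseElement _ _ Stab.fpGG.morse_element⟩, h1, h2, ?_⟩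
  rintro ⟨H, hH, hlim⟩
  have h3 := le_of_tendsto' hlim fun i => h1 (H i) (hH i).1
  have h4 : ENNReal.ofReal (249 / 20) ≤ ENNReal.ofReal (62 / 5) := h2.trans h3
  rw [ENNReal.ofReal_le_ofReal_iff (by norm_num)] at h4
  norm_num at h4

/-- the theorem in the slim form -/
theorem main :
    (verts.Finite ∧ Subgroup.closure verts = ⊤) ∧
    (¬ ∃ B : Set (Bool × Bool × Bool), B.Nonempty ∧ Bᶜ.Nonempty ∧ ∀ u ∈ B, ∀ v ∈ Bᶜ, Adj u v) ∧
    IsMorseLocalToGlobal verts ∧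
    ¬ IsVirtuallyCyclic A ∧
    (∃ g : A, IsMorseElement verts g) ∧
    (∀ H : Subgroup A, IsStable verts H → growthRate verts H ≤ ENNReal.ofReal (62 / 5)) ∧
    ENNReal.ofReal (249 / 20) ≤ growthRate verts univ ∧
    ¬ ∃ H : ℕ → Subgroup A, (∀ i, IsStable verts (H i) ∧ (H i).index = 0) ∧
      Filter.Tendsto (fun i => growthRate verts (H i)) Filter.atTop (nhds (growthRate verts univ)) :=
  ⟨⟨Set.finite_range _, PresentedGroup.closure_range_of _⟩, Stab.not_isJoin_twoSquares,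
    main₀ _ verts_eq⟩

end Pool.Agent.H3.SGG
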