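import Mathlib

/-!
# Growth of stable subgroups (MP_719818_al): definitions

Cayley graphs with the path distance, quasi-geodesics, Morse gauges, Morse local-to-global groups, stable
subgroups, growth rates, the right-angled Artin group of two disjoint 4-cycles.
-/

set_option autoImplicit false

namespace Pool.Agent.H3.SGG

open Set

/-- Word length: the least length of a word in `T ∪ T⁻¹` with product `g`. -/
noncomputable def len {G : Type} [Group G] (T : Set G) (g : G) : ℕ :=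
  sInf {n | ∃ l : List G, l.length = n ∧ (∀ x ∈ l, x ∈ T ∨ x⁻¹ ∈ T) ∧ l.prod = g}

/-- A point of the Cayley graph: the point of the edge from `g` to `h` (a constant edge if `g = h`)
at the position `t ∈ [0, 1]`. -/
structure Pt {G : Type} [Group G] (S : Set G) where
  g : G
  h : G
  edge : g = h ∨ g⁻¹ * h ∈ S ∨ h⁻¹ * g ∈ S
  t : ℝ
  t_nonneg : 0 ≤ t
  t_le_one : t ≤ 1

section cayley

variable {G : Type} [Group G] {S : Set G}

/-- The vertex `g`. -/
def vert (S : Set G) (g : G) : Pt S := ⟨g, g, Or.inl rfl, 0, le_rfl, zero_le_one⟩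

/-- The length of the edge of `p`: `1`, or `0` for a constant edge. -/
noncomputable def edgeLen (p : Pt S) : ℝ := (len S (p.g⁻¹ * p.h) : ℝ)

/-- `x` is an end of the edge of `p`, at distance `r` from `p` along the edge. -/
def IsEnd (p : Pt S) (x : G) (r : ℝ) : Prop :=
  (x = p.g ∧ r = p.t * edgeLen p) ∨ (x = p.h ∧ r = (1 - p.t) * edgeLen p)

/-- The path distance of the Cayley graph: the least length of a path through ends `x`, `y` of the
edges of `p` and `q`, or of a path inside a common edge. -/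
noncomputable def dist (p q : Pt S) : ℝ :=
  sInf {r | (∃ (x y : G) (a b : ℝ), IsEnd p x a ∧ IsEnd q y b ∧ r = a + len S (x⁻¹ * y) + b) ∨
    (p.g = q.g ∧ p.h = q.h ∧ r = |p.t - q.t| * edgeLen p) ∨
    (p.g = q.h ∧ p.h = q.g ∧ r = |p.t - (1 - q.t)| * edgeLen p)}

/-- `γ` is a `(lam, eps)`-quasi-geodesic on the set `I` of parameters. -/
def IsQuasiGeodesic (lam eps : ℝ) (I : Set ℝ) (γ : ℝ → Pt S) : Prop :=
  ∀ s ∈ I, ∀ t ∈ I, |s - t| / lam - eps ≤ dist (γ s) (γ t) ∧
    dist (γ s) (γ t) ≤ lam * |s - t| + eps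

/-- The path `γ` with the parameters `I` is `M`-Morse: every quasi-geodesic `β` with end points on
`γ` is in the neighbourhood of `γ` of the radius given by the gauge `M`. -/
def IsMorse (M : ℝ → ℝ → NNReal) (I : Set ℝ) (γ : ℝ → Pt S) : Prop :=
  ∀ lam eps : ℝ, 1 ≤ lam → 0 ≤ eps → ∀ (a b : ℝ) (β : ℝ → Pt S), a ≤ b →
    IsQuasiGeodesic lam eps (Icc a b) β → (∃ s ∈ I, dist (β a) (γ s) = 0) →
    (∃ s ∈ I, dist (β b) (γ s) = 0) →
    ∀ t ∈ Icc a b, ∃ s ∈ I, dist (β t) (γ s) ≤ M lam eps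

/-- `γ` is an `L`-local `(M; lam, eps)`-Morse quasi-geodesic on the interval `I`. -/
def IsLocalMorse (L : ℝ) (M : ℝ → ℝ → NNReal) (lam eps : ℝ) (I : Set ℝ) (γ : ℝ → Pt S) : Prop :=
  ∀ a b : ℝ, a ≤ b → b - a ≤ L → Icc a b ⊆ I →
    IsQuasiGeodesic lam eps (Icc a b) γ ∧ IsMorse M (Icc a b) γ

variable (S)

/-- `G` is Morse local-to-global. -/
def IsMorseLocalToGlobal : Prop :=
  ∀ (M : ℝ → ℝ → NNReal) (lam eps : ℝ), 1 ≤ lam → 0 ≤ eps →
    ∃ (L : ℝ) (M' : ℝ → ℝ → NNReal) (lam' eps' : ℝ), 1 ≤ lam' ∧ 0 ≤ eps' ∧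
      ∀ (I : Set ℝ) (γ : ℝ → Pt S), I.OrdConnected → IsLocalMorse L M lam eps I γ →
        IsQuasiGeodesic lam' eps' I γ ∧ IsMorse M' I γ

/-- `g` is a Morse element: it has infinite order and `n ↦ g ^ n`, `n ∈ ℤ`, is an `M`-Morse
quasi-geodesic for a gauge `M`. -/
def IsMorseElement (g : G) : Prop :=
  (∀ n : ℕ, 0 < n → g ^ n ≠ 1) ∧
  ∃ (M : ℝ → ℝ → NNReal) (lam eps : ℝ), 1 ≤ lam ∧ 0 ≤ eps ∧
    IsQuasiGeodesic lam eps (range ((↑) : ℤ → ℝ)) (fun x => vert S (g ^ ⌊x⌋)) ∧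
    IsMorse M (range ((↑) : ℤ → ℝ)) (fun x => vert S (g ^ ⌊x⌋))

/-- `H` is a stable subgroup: finitely generated, undistorted, and all geodesics `γ` between points
of `H` are `M`-Morse for one gauge `M`. -/
def IsStable (H : Subgroup G) : Prop :=
  (∃ (T : Finset G) (C : ℕ), Subgroup.closure (T : Set G) = H ∧
    ∀ h ∈ H, len (T : Set G) h ≤ C * len S h + C) ∧
  ∃ M : ℝ → ℝ → NNReal, ∀ (a b : ℝ) (γ : ℝ → Pt S), a ≤ b →
    (∀ s ∈ Icc a b, ∀ t ∈ Icc a b, dist (γ s) (γ t) = |s - t|) →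
    (∃ h ∈ H, dist (γ a) (vert S h) = 0) → (∃ h ∈ H, dist (γ b) (vert S h) = 0) →
    IsMorse M (Icc a b) γ

/-- The growth rate of `A`: the upper limit of the `n`-th roots of the numbers of elements of `A`
of word length at most `n`. -/
noncomputable def growthRate (A : Set G) : ENNReal :=
  Filter.limsup (fun n : ℕ => (Nat.card {g : G // g ∈ A ∧ len S g ≤ n} : ENNReal) ^ (1 / (n : ℝ)))
    Filter.atTop

end cayley

/-- `G` is virtually cyclic. -/
def IsVirtuallyCyclic (G : Type) [Group G] : Prop := ∃ g : G, (Subgroup.zpowers g).index ≠ 0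

/-- The edges of two disjoint 4-cycles with the vertices `Bool³` (cycle, diagonal, vertex). -/
def Adj (u v : Bool × Bool × Bool) : Prop := u.1 = v.1 ∧ u.2.1 ≠ v.2.1

/-- The relators `u v u⁻¹ v⁻¹` for the edges `u v`. -/
def rels : Set (FreeGroup (Bool × Bool × Bool)) :=
  {r | ∃ u v, Adj u v ∧
    r = FreeGroup.of u * FreeGroup.of v * (FreeGroup.of u)⁻¹ * (FreeGroup.of v)⁻¹}

/-- The right-angled Artin group of two disjoint 4-cycles. -/
abbrev A : Type := PresentedGroup rels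

/-- The 8 vertices as elements of `A`. -/
def verts : Set A := range PresentedGroup.of

end Pool.Agent.H3.SGG
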